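import Mathlib
import Pool.Agent.MP_1dbd31_co.Moore

namespace Pool.Agent.Results.MP_1dbd31_co.ExactSmallGap

open Pool.Agent.MP_1dbd31_co

theorem result (n k d e : ℕ)
    (h : (n = k + 2 * d + 1 ∧ e = 0 ∧ (d + 1) ^ 2 + 2 ≤ n) ∨
      (n = k + 2 * d + 2 ∧ e = (d + 1) ^ 2 + 1 ∧ d ∈ ({0, 1, 2, 6} : Set ℕ) ∧
        (d + 1) ^ 2 + d + 2 ≤ n ∧ 3 * d + 5 ≤ n)) :
    ghat n k = n.choose 2 - (n * d + e) / 2 := by
  rcases h with ⟨h1, rfl, h2⟩ | ⟨h1, rfl, h2, h3, h4⟩
  · have := main_odd (n := n) (k := k) (d := d) (by omega) h2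
    simp only [add_zero]
    omega
  · have hs : SrgExists ((d + 1) ^ 2 + 1) (d + 1) (1 - 1) 1 := by
      rcases h2 with rfl | rfl | rfl | rfl
      exacts [moore1, moore2, moore3, moore7]
    have a := main_lower (n := n) (k := k) (D := d + 1) (u := 1) le_rfl (by omega) (by omega)
      (by simp) (by omega)
    have b := main_exact (n := n) (k := k) (D := d + 1) (u := 1) le_rfl (by omega) (by omega) hs
      (Or.inr (by omega))
    have c : (d + 1) * (d + 1 + 1) + (n - 1) * (d + 1 - 1) = n * d + ((d + 1) ^ 2 + 1) := by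
      obtain ⟨N, rfl⟩ : ∃ N, n = N + 1 := ⟨n - 1, by omega⟩
      simp only [Nat.add_sub_cancel]
      ring
    rw [c] at a b
    omega

end Pool.Agent.Results.MP_1dbd31_co.ExactSmallGap
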